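import Mathlib
import Pool.Agent.Lib.MP_cfafa5_al.Ctb.Main

set_option autoImplicit false

universe v

namespace Pool.Agent.Results.MP_cfafa5_al.CountableRings

open Pool.Agent.Lib.MP_cfafa5_al

/-- Over a countable ring the right and left Ziegler spectra are homeomorphic at the level of
points, by a homeomorphism that induces elementary duality on the basic open sets (right
`R`-modules are left modules over the opposite ring). -/
theorem result (R : Type) [Ring R] [Countable R] :
    ∃ h : Zg.{v} Rᵐᵒᵖ ≃ₜ Zg.{v} R, ∀ φ ψ : PP Rᵐᵒᵖ, h '' basic φ ψ = basic ψ.dual φ.dual :=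
  (Ctb.main R).1

end Pool.Agent.Results.MP_cfafa5_al.CountableRings
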