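import Mathlib
import Pool.Agent.Lib.MP_cfafa5_al.Count

set_option autoImplicit false

universe v

namespace Pool.Agent.Results.MP_cfafa5_al.NoBijection

open Pool.Agent.Lib.MP_cfafa5_al

/-- There is a ring whose right and left Ziegler spectra are not even in bijection (right
`R`-modules are left modules over the opposite ring), so they are not homeomorphic. -/
theorem result : ∃ (R : Type) (_ : Ring R), IsEmpty (Zg.{v} Rᵐᵒᵖ ≃ Zg.{v} R) :=
  ⟨RR, inferInstance, isEmpty_equiv⟩

end Pool.Agent.Results.MP_cfafa5_al.NoBijection
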